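import Pool.Agent.H261R3.LN.Stmts
import Pool.Agent.H744R3.LH.StageAB

/-! Core of task StageS1 of project LM (MP_e25190_gt), by helper808, after Stage1N by helper531 and
StageAB by helper744. -/

set_option autoImplicit false

namespace Pool.Agent.H808R3.LN

open Pool.Agent.H261R3.LH (Lip1 IsLNR clip clip_nonneg)
open Pool.Agent.H261R3.LN
open Pool.Agent.H744R3.LH (clip_le_one clip_of_mem abs_clip_sub lip_mono lip_nonneg lip_le lip_of_cells
  ev ev_lip ev_neg ev_mid ev_pos)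

section
variable {S : Type} [MetricSpace S] {m : ℕ}

/-- rescaling -/
noncomputable def sc (j : ℤ) (x : Fin m → ℝ) : Fin m → ℝ := fun i => x i / 2 ^ j

lemma dist_sc (j : ℤ) (x y : Fin m → ℝ) : dist (sc j x) (sc j y) ≤ (2 : ℝ) ^ (-(j : ℝ)) * dist x y := by
  have h2 : (0 : ℝ) < 2 ^ j := by positivity
  rw [dist_pi_le_iff (by positivity)]
  intro i
  rw [Real.dist_eq]
  have h1 := dist_le_pi_dist x y i
  rw [Real.dist_eq] at h1
  unfold sc
  rw [← sub_div, abs_div, abs_of_pos h2, Real.rpow_neg (by norm_num), Real.rpow_intCast, div_eq_inv_mul]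
  exact mul_le_mul_of_nonneg_left h1 (by positivity)

/-- the extended vertical segments -/
noncomputable def es (F : (Fin m → ℝ) → ℝ → S) (g : ℤ → ℝ → (Fin m → ℝ) → S) (j : ℤ) (x : Fin m → ℝ)
    (u : ℝ) : S :=
  ev (fun t => g j t (sc j x)) (fun t => g (j + 1) t (sc (j + 1) x)) (fun h => F x (j + h)) u

/-- the homotopy -/
noncomputable def hs (F : (Fin m → ℝ) → ℝ → S) (g : ℤ → ℝ → (Fin m → ℝ) → S) (t : ℝ) (x : Fin m → ℝ)
    (η : ℝ) : S :=
  es F g ⌊η⌋ x ((1 + 2 * clip t) * Int.fract η - clip t)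

structure Dat (L : ℝ) (F : (Fin m → ℝ) → ℝ → S) (g : ℤ → ℝ → (Fin m → ℝ) → S) : Prop where
  hL : 0 ≤ L
  fx : ∀ η x x', dist (F x η) (F x' η) ≤ L * (2 : ℝ) ^ (-η) * dist x x'
  fη : ∀ x, Lip1 L (fun η => F x η)
  gx : ∀ j t, LipN L (g j t)
  gt : ∀ j u, Lip1 L (fun t => g j t u)
  g0 : ∀ j x, g j 0 (sc j x) = F x j

variable {L : ℝ} {F : (Fin m → ℝ) → ℝ → S} {g : ℤ → ℝ → (Fin m → ℝ) → S}

lemma es0 (D : Dat L F g) (j : ℤ) (x : Fin m → ℝ) :
    (fun t => g j t (sc j x)) 0 = (fun h : ℝ => F x (j + h)) 0 := by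
  show g j 0 (sc j x) = F x (j + 0)
  rw [D.g0, add_zero]

lemma es1 (D : Dat L F g) (j : ℤ) (x : Fin m → ℝ) :
    (fun h : ℝ => F x (j + h)) 1 = (fun t => g (j + 1) t (sc (j + 1) x)) 0 := by
  show F x (j + 1) = g (j + 1) 0 (sc (j + 1) x)
  rw [D.g0]; push_cast; rfl

lemma es_pos (D : Dat L F g) (j : ℤ) (x : Fin m → ℝ) {u : ℝ} (hu : 1 ≤ u) :
    es F g j x u = g (j + 1) (u - 1) (sc (j + 1) x) :=
  ev_pos (g := fun t => g j t (sc j x)) (g' := fun t => g (j + 1) t (sc (j + 1) x))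
    (F := fun h : ℝ => F x (j + h)) (es0 D j x) (es1 D j x) hu

omit [MetricSpace S] in
lemma es_neg (j : ℤ) (x : Fin m → ℝ) {u : ℝ} (hu : u ≤ 0) : es F g j x u = g j (-u) (sc j x) :=
  ev_neg _ _ _ hu

lemma es_mid (D : Dat L F g) (j : ℤ) (x : Fin m → ℝ) {u : ℝ} (hu : 0 ≤ u) (hu1 : u ≤ 1) :
    es F g j x u = F x (j + u) :=
  ev_mid (g := fun t => g j t (sc j x)) (g' := fun t => g (j + 1) t (sc (j + 1) x))
    (F := fun h : ℝ => F x (j + h)) (es0 D j x) hu hu1

lemma es_lip (D : Dat L F g) (j : ℤ) (x : Fin m → ℝ) : Lip1 L (es F g j x) := by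
  refine ev_lip (D.gt j _) (D.gt (j + 1) _) (fun a b => ?_) (es0 D j x) (es1 D j x)
  refine (D.fη x (j + a) (j + b)).trans (le_of_eq ?_)
  congr 2; ring

lemma es_x (D : Dat L F g) (j : ℤ) (u : ℝ) (x y : Fin m → ℝ) :
    dist (es F g j x u) (es F g j y u) ≤ L * (2 : ℝ) ^ (-(j : ℝ)) * dist x y := by
  have hL := D.hL
  by_cases h0 : u ≤ 0
  · rw [es_neg _ _ h0, es_neg _ _ h0]
    refine (D.gx j (-u) _ _).trans ?_
    rw [mul_assoc]
    exact mul_le_mul_of_nonneg_left (dist_sc j x y) hL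
  · have h0' := (not_le.1 h0).le
    by_cases h1 : u ≤ 1
    · rw [es_mid D j x h0' h1, es_mid D j y h0' h1]
      refine (D.fx (j + u) x y).trans ?_
      refine mul_le_mul_of_nonneg_right (mul_le_mul_of_nonneg_left ?_ hL) dist_nonneg
      exact Real.rpow_le_rpow_of_exponent_le (by norm_num) (by linarith)
    · have h1' := (not_le.1 h1).le
      rw [es_pos D j x h1', es_pos D j y h1']
      refine (D.gx (j + 1) (u - 1) _ _).trans ?_
      rw [mul_assoc]
      refine mul_le_mul_of_nonneg_left ((dist_sc (j + 1) x y).trans ?_) hL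
      refine mul_le_mul_of_nonneg_right ?_ dist_nonneg
      refine Real.rpow_le_rpow_of_exponent_le (by norm_num) ?_
      push_cast
      linarith

lemma hs_x (D : Dat L F g) (t η : ℝ) (x y : Fin m → ℝ) :
    dist (hs F g t x η) (hs F g t y η) ≤ 3 * L * (2 : ℝ) ^ (-η) * dist x y := by
  have hL := D.hL
  refine (es_x D ⌊η⌋ _ x y).trans ?_
  refine mul_le_mul_of_nonneg_right ?_ dist_nonneg
  have h1 : (2 : ℝ) ^ (-(⌊η⌋ : ℝ)) ≤ 2 * (2 : ℝ) ^ (-η) := by
    have e : 2 * (2 : ℝ) ^ (-η) = (2 : ℝ) ^ (1 - η) := by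
      rw [sub_eq_add_neg, Real.rpow_add (by norm_num), Real.rpow_one]
    rw [e]
    refine Real.rpow_le_rpow_of_exponent_le (by norm_num) ?_
    have := Int.lt_floor_add_one η
    linarith
  have h2 : (0 : ℝ) ≤ (2 : ℝ) ^ (-η) := by positivity
  calc L * (2 : ℝ) ^ (-(⌊η⌋ : ℝ)) ≤ L * (2 * (2 : ℝ) ^ (-η)) := mul_le_mul_of_nonneg_left h1 hL
    _ ≤ 3 * L * (2 : ℝ) ^ (-η) := by nlinarith [mul_nonneg hL h2]

lemma hs_cell (D : Dat L F g) (t : ℝ) (x : Fin m → ℝ) (k : ℤ) {η : ℝ} (h0 : (k : ℝ) ≤ η)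
    (h1 : η ≤ k + 1) : hs F g t x η = es F g k x ((1 + 2 * clip t) * (η - k) - clip t) := by
  have ht0 := clip_nonneg t
  rcases lt_or_eq_of_le h1 with h | h
  · have hf : ⌊η⌋ = k := Int.floor_eq_iff.2 ⟨h0, h⟩
    unfold hs Int.fract
    rw [hf]
  · have hf : ⌊η⌋ = k + 1 := by
      rw [Int.floor_eq_iff]; push_cast; constructor <;> linarith
    have e1 : Int.fract η = 0 := by
      unfold Int.fract; rw [hf, h]; push_cast; ring
    unfold hs
    rw [e1, hf]
    have e2 : (1 + 2 * clip t) * (η - k) - clip t = 1 + clip t := by rw [h]; ring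
    rw [e2]
    rw [es_pos D k x (by linarith), es_neg (k + 1) x (by linarith)]
    congr 1
    ring

lemma hs_η (D : Dat L F g) (t : ℝ) (x : Fin m → ℝ) : Lip1 (3 * L) (fun η => hs F g t x η) := by
  have hL := D.hL
  have ht0 := clip_nonneg t
  have ht1 := clip_le_one t
  refine lip_of_cells fun k a b ha hab hb => ?_
  show dist (hs F g t x a) (hs F g t x b) ≤ _
  rw [hs_cell D t x k ha (by linarith), hs_cell D t x k (by linarith) hb]
  refine (es_lip D k x _ _).trans ?_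
  have e : |(1 + 2 * clip t) * (a - k) - clip t - ((1 + 2 * clip t) * (b - k) - clip t)|
      = (1 + 2 * clip t) * (b - a) := by
    rw [abs_sub_comm, show (1 + 2 * clip t) * (b - k) - clip t - ((1 + 2 * clip t) * (a - k) - clip t)
      = (1 + 2 * clip t) * (b - a) by ring, abs_of_nonneg (mul_nonneg (by linarith) (by linarith))]
  rw [e]
  calc L * ((1 + 2 * clip t) * (b - a)) ≤ L * (3 * (b - a)) := by
        refine mul_le_mul_of_nonneg_left ?_ hL
        exact mul_le_mul_of_nonneg_right (by linarith) (by linarith)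
    _ = 3 * L * (b - a) := by ring

lemma hs_t (D : Dat L F g) (x : Fin m → ℝ) (η : ℝ) : Lip1 (3 * L) (fun t => hs F g t x η) := by
  have hL := D.hL
  intro a b
  show dist (hs F g a x η) (hs F g b x η) ≤ _
  unfold hs
  refine (es_lip D _ x _ _).trans ?_
  have hh0 := Int.fract_nonneg η
  have hh1 := (Int.fract_lt_one η).le
  have e : |(1 + 2 * clip a) * Int.fract η - clip a - ((1 + 2 * clip b) * Int.fract η - clip b)|
      = |2 * Int.fract η - 1| * |clip a - clip b| := by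
    rw [← abs_mul]; congr 1; ring
  rw [e]
  have h1 : |2 * Int.fract η - 1| ≤ 3 := by rw [abs_le]; constructor <;> linarith
  calc L * (|2 * Int.fract η - 1| * |clip a - clip b|) ≤ L * (3 * |a - b|) := by
        refine mul_le_mul_of_nonneg_left ?_ hL
        exact mul_le_mul h1 (abs_clip_sub a b) (abs_nonneg _) (by norm_num)
    _ = 3 * L * |a - b| := by ring

lemma hs_zero (D : Dat L F g) (x : Fin m → ℝ) (η : ℝ) : hs F g 0 x η = F x η := by
  have c0 : clip 0 = 0 := clip_of_mem le_rfl zero_le_one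
  unfold hs
  rw [c0, es_mid D _ x (by have := Int.fract_nonneg η; linarith)
    (by have := Int.fract_lt_one η; linarith)]
  congr 1
  have := Int.floor_add_fract η
  linarith

lemma hs_int (D : Dat L F g) (t : ℝ) (x : Fin m → ℝ) (j : ℤ) : hs F g t x j = g j (clip t) (sc j x) := by
  have ht0 := clip_nonneg t
  rw [hs_cell D t x j le_rfl (by linarith)]
  rw [sub_self, mul_zero, es_neg _ _ (by linarith)]
  congr 1
  ring

lemma hs_one (D : Dat L F g) (x : Fin m → ℝ) (j : ℤ) : hs F g 1 x j = g j 1 (sc j x) := by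
  have c1 : clip 1 = 1 := clip_of_mem zero_le_one le_rfl
  rw [hs_int D, c1]

end

end Pool.Agent.H808R3.LN
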