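import Pool.Agent.H261R3.LN.SStmts
import Pool.Agent.H808R3.LN.Core

/-! Task StageS1 of project LM (MP_e25190_gt), by helper808. -/

set_option autoImplicit false

namespace Pool.Agent.H808R3.LN

open Pool.Agent.H261R3.LH (Lip1 IsLNR clip clip_nonneg)
open Pool.Agent.H261R3.LN
open Pool.Agent.H744R3.LH (lip_mono lip_nonneg)

lemma far_sc {m : ℕ} {j : ℤ} {x : Fin m → ℝ} (h : Far j (2 ^ j / 100) x) : Far 0 (1 / 100) (sc j x) := by
  intro i n
  have h2 : (0 : ℝ) < 2 ^ j := by positivity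
  have h1 := h i n
  have e : x i - 2 ^ j * ((n : ℝ) + 1 / 6) = 2 ^ j * (sc j x i - 2 ^ (0 : ℤ) * ((n : ℝ) + 1 / 6)) := by
    unfold sc
    rw [zpow_zero]
    field_simp
  rw [e, abs_mul, abs_of_pos h2] at h1
  have h3 : (2 : ℝ) ^ j * (1 / 100) ≤ 2 ^ j * |sc j x i - 2 ^ (0 : ℤ) * ((n : ℝ) + 1 / 6)| := by
    calc (2 : ℝ) ^ j * (1 / 100) = 2 ^ j / 100 := by ring
      _ ≤ _ := h1
  exact le_of_mul_le_mul_left h3 h2

theorem taskStageS1 : TaskStageS1 := by
  intro hSlice S _ p m hP C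
  obtain ⟨C0, hC0, hsl⟩ := hSlice S p m hP C
  refine ⟨3 * max C C0, by positivity, fun F hF => ?_⟩
  obtain ⟨hF1, hF2⟩ := hF
  have hC : 0 ≤ C := lip_nonneg (hF2 (fun _ => 0))
  have hLC : C ≤ max C C0 := le_max_left _ _
  have hLC0 : C0 ≤ max C C0 := le_max_right _ _
  have hL0 : 0 ≤ max C C0 := hC.trans hLC
  have hslice : ∀ j : ℤ, LipN C (fun u : Fin m → ℝ => F (fun i => 2 ^ j * u i) j) := by
    intro j u v
    have h2 : (0 : ℝ) < 2 ^ j := by positivity
    refine (hF1 j _ _).trans ?_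
    rw [mul_assoc]
    refine mul_le_mul_of_nonneg_left ?_ hC
    have h3 : dist (fun i => 2 ^ j * u i) (fun i => 2 ^ j * v i) ≤ 2 ^ j * dist u v := by
      rw [dist_pi_le_iff (by positivity)]
      intro i
      rw [Real.dist_eq, ← mul_sub, abs_mul, abs_of_pos h2, ← Real.dist_eq]
      exact mul_le_mul_of_nonneg_left (dist_le_pi_dist u v i) h2.le
    rw [Real.rpow_neg (by norm_num), Real.rpow_intCast]
    calc ((2 : ℝ) ^ j)⁻¹ * dist (fun i => 2 ^ j * u i) (fun i => 2 ^ j * v i)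
        ≤ ((2 : ℝ) ^ j)⁻¹ * (2 ^ j * dist u v) := mul_le_mul_of_nonneg_left h3 (by positivity)
      _ = dist u v := by rw [← mul_assoc, inv_mul_cancel₀ h2.ne', one_mul]
  choose g hg1 hg2 hg3 hg4 using fun j : ℤ => hsl _ (hslice j)
  have D : Dat (max C C0) F g := by
    refine ⟨hL0, fun η x x' => ?_, fun x => lip_mono (hF2 x) hLC, fun j t x y => ?_,
      fun j u => lip_mono (hg2 j u) hLC0, fun j x => ?_⟩
    · refine (hF1 η x x').trans ?_
      exact mul_le_mul_of_nonneg_right (mul_le_mul_of_nonneg_right hLC (by positivity)) dist_nonneg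
    · exact (hg1 j t x y).trans (mul_le_mul_of_nonneg_right hLC0 dist_nonneg)
    · rw [hg3]
      congr 1
      funext i
      have h2 : (2 : ℝ) ^ j ≠ 0 := by positivity
      show 2 ^ j * (x i / 2 ^ j) = x i
      field_simp
  refine ⟨hs F g, fun t => ⟨fun η x x' => hs_x D t η x x', fun x => hs_η D t x⟩,
    fun x η => hs_t D x η, fun x η => hs_zero D x η, fun j x hx => ?_⟩
  rw [hs_one D]
  exact hg4 j _ (far_sc hx)

end Pool.Agent.H808R3.LN
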