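import Pool.Agent.H261R3.LN.SStmts
import Pool.Agent.H744R3.LH.StageAB

/-! Task Slice of project LM (MP_e25190_gt), by helper808. -/

set_option autoImplicit false

namespace Pool.Agent.H808R3.LN

open Pool.Agent.H261R3.LH (Lip1 IsLNR clip clip_nonneg)
open Pool.Agent.H261R3.LN
open Pool.Agent.H744R3.LH (clip_le_one clip_of_mem abs_clip_sub lip_mono lip_nonneg lip_le lip_of_cells
  lip_of_le)

/-- distance to the walls -/
noncomputable def dl (s : ℝ) : ℝ := min (Int.fract (s - 1 / 6)) (1 - Int.fract (s - 1 / 6))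

lemma dl_le (s : ℝ) (n : ℤ) : dl s ≤ |s - (n + 1 / 6)| := by
  unfold dl
  have h1 := Int.floor_add_fract (s - 1 / 6)
  rcases le_or_gt n ⌊s - 1 / 6⌋ with h | h
  · have h' : (n : ℝ) ≤ ⌊s - 1 / 6⌋ := by exact_mod_cast h
    refine (min_le_left _ _).trans ?_
    refine le_trans ?_ (le_abs_self _)
    linarith
  · have h' : (⌊s - 1 / 6⌋ : ℝ) + 1 ≤ n := by exact_mod_cast h
    refine (min_le_right _ _).trans ?_
    refine le_trans ?_ (neg_le_abs _)
    linarith

lemma dl_att (s : ℝ) : ∃ n : ℤ, dl s = |s - (n + 1 / 6)| := by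
  have h1 := Int.floor_add_fract (s - 1 / 6)
  have h2 := Int.fract_nonneg (s - 1 / 6)
  have h3 := Int.fract_lt_one (s - 1 / 6)
  unfold dl
  rcases min_choice (Int.fract (s - 1 / 6)) (1 - Int.fract (s - 1 / 6)) with h | h
  · refine ⟨⌊s - 1 / 6⌋, ?_⟩
    rw [h, abs_of_nonneg (by linarith)]
    linarith
  · refine ⟨⌊s - 1 / 6⌋ + 1, ?_⟩
    rw [h]
    push_cast
    rw [abs_of_nonpos (by linarith)]
    linarith

lemma dl_lip (s s' : ℝ) : |dl s - dl s'| ≤ |s - s'| := by
  rw [abs_le]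
  obtain ⟨n, hn⟩ := dl_att s
  obtain ⟨n', hn'⟩ := dl_att s'
  have h1 := dl_le s n'
  have h2 := dl_le s' n
  have h3 : |s - (n' + 1 / 6)| ≤ |s - s'| + |s' - (n' + 1 / 6)| := abs_sub_le _ _ _
  have h4 : |s' - (n + 1 / 6)| ≤ |s' - s| + |s - (n + 1 / 6)| := abs_sub_le _ _ _
  rw [abs_sub_comm s' s] at h4
  constructor <;> linarith

/-- the profile of the collapse -/
noncomputable def ps (u : ℝ) : ℝ := min (100 * u) (1 / 2) + max (100 * (u - 1) + 1 / 2) 0

lemma ps_lip (u v : ℝ) : |ps u - ps v| ≤ 200 * |u - v| := by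
  have a1 : |min (100 * u) (1 / 2) - min (100 * v) (1 / 2)| ≤ 100 * |u - v| := by
    refine (abs_min_sub_min_le_max (100 * u) (1 / 2) (100 * v) (1 / 2)).trans (max_le ?_ ?_)
    · rw [← mul_sub, abs_mul, abs_of_pos (by norm_num : (0 : ℝ) < 100)]
    · rw [sub_self, abs_zero]; positivity
  have a2 : |max (100 * (u - 1) + 1 / 2) 0 - max (100 * (v - 1) + 1 / 2) 0| ≤ 100 * |u - v| := by
    refine (abs_max_sub_max_le_max (100 * (u - 1) + 1 / 2) 0 (100 * (v - 1) + 1 / 2) 0).trans (max_le ?_ ?_)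
    · rw [show 100 * (u - 1) + 1 / 2 - (100 * (v - 1) + 1 / 2) = 100 * (u - v) by ring, abs_mul,
        abs_of_pos (by norm_num : (0 : ℝ) < 100)]
    · rw [sub_self, abs_zero]; positivity
  unfold ps
  calc _ = |(min (100 * u) (1 / 2) - min (100 * v) (1 / 2)) +
        (max (100 * (u - 1) + 1 / 2) 0 - max (100 * (v - 1) + 1 / 2) 0)| := by congr 1; ring
    _ ≤ _ := (abs_add_le _ _).trans (by linarith)

lemma ps_zero : ps 0 = 0 := by unfold ps; norm_num
lemma ps_one : ps 1 = 1 := by unfold ps; norm_num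

lemma ps_mem {u : ℝ} (h0 : 0 ≤ u) (h1 : u ≤ 1) : 0 ≤ ps u ∧ ps u ≤ 1 := by
  unfold ps
  have a1 : 0 ≤ min (100 * u) (1 / 2) := le_min (by linarith) (by norm_num)
  have a2 : min (100 * u) (1 / 2) ≤ 1 / 2 := min_le_right _ _
  have a3 : 0 ≤ max (100 * (u - 1) + 1 / 2) 0 := le_max_right _ _
  have a4 : max (100 * (u - 1) + 1 / 2) 0 ≤ 1 / 2 := max_le (by linarith) (by norm_num)
  constructor <;> linarith

/-- the collapse, before the shift -/
noncomputable def Ps0 (v : ℝ) : ℝ := ⌊v⌋ + ps (Int.fract v)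

lemma Ps0_cell (k : ℤ) {v : ℝ} (h0 : (k : ℝ) ≤ v) (h1 : v ≤ k + 1) : Ps0 v = k + ps (v - k) := by
  rcases lt_or_eq_of_le h1 with h | h
  · have hf : ⌊v⌋ = k := Int.floor_eq_iff.2 ⟨h0, h⟩
    unfold Ps0 Int.fract
    rw [hf]
  · have hf : ⌊v⌋ = k + 1 := by
      rw [Int.floor_eq_iff]; push_cast; constructor <;> linarith
    unfold Ps0 Int.fract
    rw [hf, h]; push_cast
    rw [sub_self, ps_zero, show (k : ℝ) + 1 - k = 1 by ring, ps_one, add_zero]

lemma Ps0_lip : Lip1 200 Ps0 := by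
  refine lip_of_cells fun k x y hx hxy hy => ?_
  rw [Ps0_cell k hx (by linarith), Ps0_cell k (by linarith) hy, Real.dist_eq]
  have := ps_lip (x - k) (y - k)
  rw [show x - k - (y - k) = x - y by ring, abs_sub_comm x y, abs_of_nonneg (by linarith : 0 ≤ y - x)] at this
  rw [show (k : ℝ) + ps (x - k) - (k + ps (y - k)) = ps (x - k) - ps (y - k) by ring]
  exact this

/-- the collapse -/
noncomputable def Ps (s : ℝ) : ℝ := Ps0 (s - 1 / 6) + 1 / 6

lemma Ps_lip (s s' : ℝ) : |Ps s - Ps s'| ≤ 200 * |s - s'| := by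
  have := Ps0_lip (s - 1 / 6) (s' - 1 / 6)
  rw [Real.dist_eq, show s - 1 / 6 - (s' - 1 / 6) = s - s' by ring] at this
  unfold Ps
  rwa [show Ps0 (s - 1 / 6) + 1 / 6 - (Ps0 (s' - 1 / 6) + 1 / 6) = Ps0 (s - 1 / 6) - Ps0 (s' - 1 / 6) by ring]

lemma Ps_near (s : ℝ) : |Ps s - s| ≤ 1 := by
  have h1 := Int.floor_add_fract (s - 1 / 6)
  have h2 := Int.fract_nonneg (s - 1 / 6)
  have h3 := (Int.fract_lt_one (s - 1 / 6)).le
  obtain ⟨h4, h5⟩ := ps_mem h2 h3
  unfold Ps Ps0
  rw [abs_le]
  constructor <;> linarith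

/-- the cutoff in one coordinate -/
noncomputable def ct (s : ℝ) : ℝ := clip (200 * dl s - 1)

lemma dl_nonneg (s : ℝ) : 0 ≤ dl s := by
  obtain ⟨n, hn⟩ := dl_att s
  rw [hn]; exact abs_nonneg _

lemma ct_le (s : ℝ) (n : ℤ) : ct s ≤ 200 * |s - (n + 1 / 6)| := by
  have h1 := dl_le s n
  have h2 := dl_nonneg s
  unfold ct clip
  refine max_le (by positivity) ((min_le_right _ _).trans ?_)
  linarith

lemma ct_lip (s s' : ℝ) : |ct s - ct s'| ≤ 200 * |s - s'| := by
  unfold ct
  refine (abs_clip_sub _ _).trans ?_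
  rw [show 200 * dl s - 1 - (200 * dl s' - 1) = 200 * (dl s - dl s') by ring, abs_mul,
    abs_of_pos (by norm_num : (0 : ℝ) < 200)]
  exact mul_le_mul_of_nonneg_left (dl_lip s s') (by norm_num)

lemma Ps_of_ct {s : ℝ} (h : 0 < ct s) : Ps s = ⌊s - 1 / 6⌋ + 1 / 2 + 1 / 6 := by
  have h1 : 0 < 200 * dl s - 1 := by
    by_contra hc
    rw [not_lt] at hc
    unfold ct clip at h
    rw [min_eq_right (by linarith), max_eq_left hc] at h
    exact lt_irrefl _ h
  have h2 : dl s ≤ Int.fract (s - 1 / 6) := min_le_left _ _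
  have h3 : dl s ≤ 1 - Int.fract (s - 1 / 6) := min_le_right _ _
  unfold Ps Ps0 ps
  rw [min_eq_right (by linarith), max_eq_right (by linarith)]
  ring

section
variable {m : ℕ}

/-- the cutoff -/
noncomputable def ch (x : Fin m → ℝ) : ℝ := 1 - ‖fun i => 1 - ct (x i)‖

lemma ch_le (x : Fin m → ℝ) (i : Fin m) : ch x ≤ ct (x i) := by
  unfold ch
  have h1 := norm_le_pi_norm (fun i => 1 - ct (x i)) i
  have h2 : 1 - ct (x i) ≤ ‖1 - ct (x i)‖ := Real.le_norm_self _
  linarith

lemma ch_nonneg (x : Fin m → ℝ) : 0 ≤ ch x := by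
  unfold ch
  have : ‖fun i => 1 - ct (x i)‖ ≤ 1 := by
    rw [pi_norm_le_iff_of_nonneg zero_le_one]
    intro i
    have h0 := clip_nonneg (200 * dl (x i) - 1)
    have h1 := clip_le_one (200 * dl (x i) - 1)
    rw [Real.norm_eq_abs, abs_le]
    unfold ct
    constructor <;> linarith
  linarith

lemma ch_le_one (x : Fin m → ℝ) : ch x ≤ 1 := by
  unfold ch
  have := norm_nonneg (fun i => 1 - ct (x i))
  linarith

lemma ch_lip (x y : Fin m → ℝ) : |ch x - ch y| ≤ 200 * dist x y := by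
  unfold ch
  rw [show 1 - ‖fun i => 1 - ct (x i)‖ - (1 - ‖fun i => 1 - ct (y i)‖) =
    ‖fun i => 1 - ct (y i)‖ - ‖fun i => 1 - ct (x i)‖ by ring]
  refine (abs_norm_sub_norm_le _ _).trans ?_
  rw [pi_norm_le_iff_of_nonneg (by positivity)]
  intro i
  rw [Pi.sub_apply, Real.norm_eq_abs, show 1 - ct (y i) - (1 - ct (x i)) = ct (x i) - ct (y i) by ring]
  refine (ct_lip _ _).trans (mul_le_mul_of_nonneg_left ?_ (by norm_num))
  rw [← Real.dist_eq]
  exact dist_le_pi_dist x y i

lemma ch_far {x : Fin m → ℝ} (h : Far 0 (1 / 100) x) : ch x = 1 := by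
  have : (fun i => 1 - ct (x i)) = fun _ => (0 : ℝ) := by
    funext i
    obtain ⟨n, hn⟩ := dl_att (x i)
    have h1 := h i n
    rw [zpow_zero, one_mul, ← hn] at h1
    unfold ct clip
    rw [min_eq_left (by linarith), max_eq_right zero_le_one, sub_self]
  unfold ch
  rw [this]
  have e : (fun _ : Fin m => (0 : ℝ)) = 0 := rfl
  rw [e, norm_zero, sub_zero]

/-- The key dichotomy. -/
lemma ch_dich (x y : Fin m → ℝ) : (fun i => Ps (x i)) = (fun i => Ps (y i)) ∨ ch x + ch y ≤ 200 * dist x y := by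
  have hl := abs_le.1 (ch_lip x y)
  by_cases hx : 0 < ch x
  · by_cases hy : 0 < ch y
    · by_cases hf : ∀ i, ⌊x i - 1 / 6⌋ = ⌊y i - 1 / 6⌋
      · left
        funext i
        rw [Ps_of_ct (hx.trans_le (ch_le x i)), Ps_of_ct (hy.trans_le (ch_le y i)), hf i]
      · right
        obtain ⟨i, hi⟩ := not_forall.1 hf
        have hd := dist_le_pi_dist x y i
        rw [Real.dist_eq] at hd
        have hx1 := Int.floor_le (x i - 1 / 6)
        have hx2 := Int.lt_floor_add_one (x i - 1 / 6)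
        have hy1 := Int.floor_le (y i - 1 / 6)
        have hy2 := Int.lt_floor_add_one (y i - 1 / 6)
        rcases lt_or_gt_of_ne hi with h | h
        · have h' : (⌊x i - 1 / 6⌋ : ℝ) + 1 ≤ ⌊y i - 1 / 6⌋ := by exact_mod_cast h
          have a1 := (ch_le x i).trans (ct_le (x i) ⌊y i - 1 / 6⌋)
          have a2 := (ch_le y i).trans (ct_le (y i) ⌊y i - 1 / 6⌋)
          rw [abs_of_nonpos (by linarith)] at a1
          rw [abs_of_nonneg (by linarith)] at a2
          rw [abs_of_nonpos (by linarith)] at hd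
          linarith
        · have h' : (⌊y i - 1 / 6⌋ : ℝ) + 1 ≤ ⌊x i - 1 / 6⌋ := by exact_mod_cast h
          have a1 := (ch_le x i).trans (ct_le (x i) ⌊x i - 1 / 6⌋)
          have a2 := (ch_le y i).trans (ct_le (y i) ⌊x i - 1 / 6⌋)
          rw [abs_of_nonneg (by linarith)] at a1
          rw [abs_of_nonpos (by linarith)] at a2
          rw [abs_of_nonneg (by linarith)] at hd
          linarith
    · right; linarith
  · right; linarith

end

theorem taskSlice : TaskSlice := by
  intro S _ p m hP C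
  obtain ⟨C1, hC1, hP⟩ := hP
  choose P hP1 hP2 hP3 using hP
  set D := max C 0 with hD
  have hD0 : 0 ≤ D := le_max_right _ _
  refine ⟨300 * (D + C1), by positivity, fun f hf0 => ?_⟩
  have hf : LipN D f := fun x y => (hf0 x y).trans (mul_le_mul_of_nonneg_right (le_max_left _ _) dist_nonneg)
  let q : ℝ → (Fin m → ℝ) → (Fin m → ℝ) := fun u x i => x i + u * (Ps (x i) - x i)
  have q0 : ∀ x, q 0 x = x := fun x => by funext i; show x i + 0 * _ = x i; ring
  have q1 : ∀ x, q 1 x = fun i => Ps (x i) := fun x => by funext i; show x i + 1 * _ = _; ring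
  have qx : ∀ u x y, 0 ≤ u → u ≤ 1 → dist (q u x) (q u y) ≤ 201 * dist x y := by
    intro u x y h0 h1
    rw [dist_pi_le_iff (by positivity)]
    intro i
    rw [Real.dist_eq]
    have a1 := Ps_lip (x i) (y i)
    have a2 := dist_le_pi_dist x y i
    rw [Real.dist_eq] at a2
    show |x i + u * (Ps (x i) - x i) - (y i + u * (Ps (y i) - y i))| ≤ _
    calc _ = |(1 - u) * (x i - y i) + u * (Ps (x i) - Ps (y i))| := by congr 1; ring
      _ ≤ |(1 - u) * (x i - y i)| + |u * (Ps (x i) - Ps (y i))| := abs_add_le _ _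
      _ = (1 - u) * |x i - y i| + u * |Ps (x i) - Ps (y i)| := by
        rw [abs_mul, abs_mul, abs_of_nonneg (by linarith : 0 ≤ 1 - u), abs_of_nonneg h0]
      _ ≤ 1 * |x i - y i| + 1 * (200 * |x i - y i|) := by
        refine add_le_add (mul_le_mul_of_nonneg_right (by linarith) (abs_nonneg _)) ?_
        exact mul_le_mul h1 a1 (abs_nonneg _) zero_le_one
      _ ≤ 201 * dist x y := by linarith
  have qu : ∀ u v x, dist (q u x) (q v x) ≤ |u - v| := by
    intro u v x
    rw [dist_pi_le_iff (abs_nonneg _)]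
    intro i
    rw [Real.dist_eq]
    show |x i + u * (Ps (x i) - x i) - (x i + v * (Ps (x i) - x i))| ≤ _
    rw [show x i + u * (Ps (x i) - x i) - (x i + v * (Ps (x i) - x i)) = (u - v) * (Ps (x i) - x i) by ring,
      abs_mul]
    exact mul_le_of_le_one_right (abs_nonneg _) (Ps_near _)
  let g : ℝ → (Fin m → ℝ) → S := fun t x => P (f (q (clip (2 * t)) x)) (clip (2 * t - 1) * ch x)
  have c0 : ∀ t : ℝ, t ≤ 0 → clip t = 0 := fun t ht => by
    unfold clip; rw [min_eq_right (by linarith), max_eq_left ht]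
  have c1 : ∀ t : ℝ, 1 ≤ t → clip t = 1 := fun t ht => by
    unfold clip; rw [min_eq_left ht, max_eq_right zero_le_one]
  have glo : ∀ t x, t ≤ 1 / 2 → g t x = f (q (clip (2 * t)) x) := by
    intro t x ht
    show P _ _ = _
    rw [c0 (2 * t - 1) (by linarith), zero_mul, hP2]
  have ghi : ∀ t x, 1 / 2 ≤ t → g t x = P (f (fun i => Ps (x i))) (clip (2 * t - 1) * ch x) := by
    intro t x ht
    show P _ _ = _
    rw [c1 (2 * t) (by linarith), q1]
  have fP : ∀ x y : Fin m → ℝ, dist (f (fun i => Ps (x i))) (f (fun i => Ps (y i))) ≤ D * (201 * dist x y) := by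
    intro x y
    have := qx 1 x y zero_le_one le_rfl
    rw [q1, q1] at this
    exact (hf _ _).trans (mul_le_mul_of_nonneg_left this hD0)
  refine ⟨g, fun t x y => ?_, fun x => ?_, fun x => ?_, fun x hx => ?_⟩
  · have hd : 0 ≤ dist x y := dist_nonneg
    rcases le_total t (1 / 2) with ht | ht
    · rw [glo t x ht, glo t y ht]
      refine (hf _ _).trans ?_
      have := mul_le_mul_of_nonneg_left (qx (clip (2 * t)) x y (clip_nonneg _) (clip_le_one _)) hD0
      have h2 := mul_nonneg hD0 hd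
      have h3 := mul_nonneg hC1 hd
      nlinarith
    · rw [ghi t x ht, ghi t y ht]
      set u := clip (2 * t - 1) with hu
      have hu0 : 0 ≤ u := clip_nonneg _
      have hu1 : u ≤ 1 := clip_le_one _
      have h2 := mul_nonneg hD0 hd
      have h3 := mul_nonneg hC1 hd
      rcases ch_dich x y with h | h
      · rw [h]
        refine (hP1 _ _ _).trans ?_
        have h4 : |u * ch x - u * ch y| ≤ 200 * dist x y := by
          rw [← mul_sub, abs_mul, abs_of_nonneg hu0]
          exact (mul_le_of_le_one_left (abs_nonneg _) hu1).trans (ch_lip x y)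
        have h5 := mul_le_mul_of_nonneg_left h4 hC1
        nlinarith
      · have a1 : dist (P (f fun i => Ps (x i)) (u * ch x)) (f fun i => Ps (x i)) ≤ C1 * ch x := by
          have := hP1 (f fun i => Ps (x i)) (u * ch x) 0
          rw [hP2, sub_zero, abs_of_nonneg (mul_nonneg hu0 (ch_nonneg x))] at this
          exact this.trans (mul_le_mul_of_nonneg_left (mul_le_of_le_one_left (ch_nonneg x) hu1) hC1)
        have a2 : dist (f fun i => Ps (y i)) (P (f fun i => Ps (y i)) (u * ch y)) ≤ C1 * ch y := by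
          have := hP1 (f fun i => Ps (y i)) (u * ch y) 0
          rw [hP2, sub_zero, abs_of_nonneg (mul_nonneg hu0 (ch_nonneg y))] at this
          rw [dist_comm]
          exact this.trans (mul_le_mul_of_nonneg_left (mul_le_of_le_one_left (ch_nonneg y) hu1) hC1)
        have a3 := fP x y
        have a4 := dist_triangle4 (P (f fun i => Ps (x i)) (u * ch x)) (f fun i => Ps (x i))
          (f fun i => Ps (y i)) (P (f fun i => Ps (y i)) (u * ch y))
        have a5 := mul_le_mul_of_nonneg_left h hC1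
        nlinarith
  · refine lip_of_le fun a b hab => ?_
    have lo : ∀ a b : ℝ, a ≤ b → b ≤ 1 / 2 → dist (g a x) (g b x) ≤ 300 * (D + C1) * (b - a) := by
      intro a b hab hb
      rw [glo a x (by linarith), glo b x hb]
      refine (hf _ _).trans ?_
      have h1 := (qu (clip (2 * a)) (clip (2 * b)) x).trans (abs_clip_sub _ _)
      rw [show 2 * a - 2 * b = -(2 * (b - a)) by ring, abs_neg, abs_of_nonneg (by linarith)] at h1
      have h2 := mul_le_mul_of_nonneg_left h1 hD0
      have h3 := mul_nonneg hD0 (sub_nonneg.2 hab)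
      have h4 := mul_nonneg hC1 (sub_nonneg.2 hab)
      nlinarith
    have hi : ∀ a b : ℝ, a ≤ b → 1 / 2 ≤ a → dist (g a x) (g b x) ≤ 300 * (D + C1) * (b - a) := by
      intro a b hab ha
      rw [ghi a x ha, ghi b x (by linarith)]
      refine (hP1 _ _ _).trans ?_
      have h1 := abs_clip_sub (2 * a - 1) (2 * b - 1)
      rw [show 2 * a - 1 - (2 * b - 1) = -(2 * (b - a)) by ring, abs_neg,
        abs_of_nonneg (by linarith : (0 : ℝ) ≤ 2 * (b - a))] at h1
      have h5 : |clip (2 * a - 1) * ch x - clip (2 * b - 1) * ch x| ≤ 2 * (b - a) := by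
        rw [← sub_mul, abs_mul, abs_of_nonneg (ch_nonneg x)]
        exact (mul_le_of_le_one_right (abs_nonneg _) (ch_le_one x)).trans h1
      have h2 := mul_le_mul_of_nonneg_left h5 hC1
      have h3 := mul_nonneg hD0 (sub_nonneg.2 hab)
      have h4 := mul_nonneg hC1 (sub_nonneg.2 hab)
      nlinarith
    rcases le_total b (1 / 2) with hb | hb
    · exact lo a b hab hb
    · rcases le_total a (1 / 2) with ha | ha
      · have h1 := lo a (1 / 2) ha le_rfl
        have h2 := hi (1 / 2) b hb le_rfl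
        have h3 := dist_triangle (g a x) (g (1 / 2) x) (g b x)
        calc _ ≤ _ := h3
          _ ≤ 300 * (D + C1) * (1 / 2 - a) + 300 * (D + C1) * (b - 1 / 2) := add_le_add h1 h2
          _ = _ := by ring
      · exact hi a b hab ha
  · rw [glo 0 x (by norm_num), c0 (2 * 0) (by norm_num), q0]
  · rw [ghi 1 x (by norm_num), c1 (2 * 1 - 1) (by norm_num), ch_far hx, one_mul, hP3]

end Pool.Agent.H808R3.LN
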