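import Pool.Agent.H261R3.LN.SStmts
import Pool.Agent.H744R3.LH.StageAB

/-! Lemma VAL of task Sweep of project LM (MP_e25190_gt), by helper808, with the definitions of helper946. -/

set_option autoImplicit false

namespace Pool.Agent.H808R3.LN.Sw

open Pool.Agent.H261R3.LH (Lip1 IsLNR clip clip_nonneg)
open Pool.Agent.H261R3.LN
open Pool.Agent.H744R3.LH (clip_le_one clip_of_mem abs_clip_sub)

noncomputable def g (κ s : ℝ) : ℝ := max (-(max (1/100) |s|)) (min (max (1/100) |s|) (κ * s)) - s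
noncomputable def gp (κ a : ℝ) : ℝ := g κ (a - round a)
noncomputable def kap (l : ℤ) (η : ℝ) : ℝ := max 1 ((2:ℝ) ^ ((l:ℝ) - 1 - η))
noncomputable def dl (l : ℤ) (η x : ℝ) : ℝ := 2 ^ l * gp (kap l η) (x / 2 ^ l - 1/6)
noncomputable def al (w : ℝ) : ℝ := clip (min (2*w+2) (3-2*w))
noncomputable def hh (L : ℝ) : ℝ := ⌊L⌋ + max 0 (2 * Int.fract L - 1)
noncomputable def Mp {m : ℕ} (L η : ℝ) (x : Fin m → ℝ) : Fin m → ℝ :=
  fun i => x i + ∑ l ∈ Finset.Icc (⌊L⌋-1) (⌊L⌋+1), al (L - l) * dl l η (x i)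
noncomputable def KK {S : Type} {m : ℕ} (F : (Fin m → ℝ) → ℝ → S) (L : ℝ) (x : Fin m → ℝ) (η : ℝ) : S :=
  F (Mp L η x) (max η (hh L))

lemma kap_one (l : ℤ) (η : ℝ) : 1 ≤ kap l η := le_max_left _ _

lemma g_up {κ s : ℝ} : |s + g κ s| ≤ max (1/100) |s| := by
  have hM : 0 ≤ max (1/100) |s| := (abs_nonneg s).trans (le_max_right _ _)
  unfold g
  rw [show ∀ a : ℝ, s + (a - s) = a by intro a; ring, abs_le]
  refine ⟨le_max_left _ _, max_le (by linarith) (min_le_left _ _)⟩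

lemma g_low {κ s : ℝ} (h : 1/100 ≤ κ * |s|) (hκ : 1 ≤ κ) : 1/100 ≤ |s + g κ s| := by
  have hM : 1/100 ≤ max (1/100) |s| := le_max_left _ _
  unfold g
  rw [show ∀ a : ℝ, s + (a - s) = a by intro a; ring]
  rcases le_total 0 s with hs | hs
  · rw [abs_of_nonneg hs] at h
    refine le_trans ?_ (le_abs_self _)
    exact (le_min hM h).trans (le_max_right _ _)
  · rw [abs_of_nonpos hs] at h
    refine le_trans ?_ (neg_le_abs _)
    rw [le_neg]
    refine max_le (by linarith) ((min_le_right _ _).trans (by linarith))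

lemma g_zero {κ s : ℝ} (h : 1/100 ≤ |s|) (hκ : 1 ≤ κ) : g κ s = 0 := by
  unfold g
  rw [max_eq_right h]
  rcases le_total 0 s with hs | hs
  · rw [abs_of_nonneg hs, min_eq_left (by nlinarith), max_eq_right (by linarith), sub_self]
  · rw [abs_of_nonpos hs, min_eq_right (by nlinarith), neg_neg, max_eq_left (by nlinarith), sub_self]

lemma g_abs {κ s : ℝ} (hκ : 1 ≤ κ) : |g κ s| ≤ 1/100 := by
  rcases le_total (1/100) |s| with h | h
  · rw [g_zero h hκ, abs_zero]; norm_num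
  · unfold g
    rw [max_eq_left h]
    have hs := abs_le.1 h
    rw [abs_le]
    rcases le_total 0 s with h0 | h0
    · have h1 : 0 ≤ κ * s := mul_nonneg (by linarith) h0
      have h2 : s ≤ κ * s := by nlinarith
      have h3 : 0 ≤ min (1/100) (κ * s) := le_min (by norm_num) h1
      have h4 : s ≤ min (1/100) (κ * s) := le_min hs.2 h2
      have h5 : min (1/100) (κ * s) ≤ 1/100 := min_le_left _ _
      rw [max_eq_right (by linarith)]
      constructor <;> linarith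
    · have h1 : κ * s ≤ 0 := mul_nonpos_of_nonneg_of_nonpos (by linarith) h0
      have h2 : κ * s ≤ s := by nlinarith
      rw [min_eq_right (by linarith)]
      have h3 : -(1/100) ≤ max (-(1/100)) (κ * s) := le_max_left _ _
      have h4 : max (-(1/100)) (κ * s) ≤ s := max_le (by linarith [hs.1]) h2
      constructor <;> linarith

lemma pw (l : ℤ) : (0 : ℝ) < 2 ^ l := by positivity

lemma dl_abs (l : ℤ) (η x : ℝ) : |dl l η x| ≤ 2 ^ l / 100 := by
  unfold dl gp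
  rw [abs_mul, abs_of_pos (pw l)]
  have := g_abs (κ := kap l η) (s := x / 2 ^ l - 1/6 - round (x / 2 ^ l - 1/6)) (kap_one l η)
  calc _ ≤ 2 ^ l * (1 / 100) := mul_le_mul_of_nonneg_left this (pw l).le
    _ = _ := by ring

lemma x_eq (l : ℤ) (x : ℝ) : x - 2 ^ l * ((round (x / 2 ^ l - 1/6) : ℝ) + 1 / 6) =
    2 ^ l * (x / 2 ^ l - 1/6 - round (x / 2 ^ l - 1/6)) := by
  have := (pw l).ne'
  field_simp
  ring

lemma dl_ne {l : ℤ} {η x : ℝ} (h : dl l η x ≠ 0) : ∃ n : ℤ, |x - 2 ^ l * ((n : ℝ) + 1 / 6)| ≤ 2 ^ l / 100 := by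
  refine ⟨round (x / 2 ^ l - 1/6), ?_⟩
  rw [x_eq, abs_mul, abs_of_pos (pw l)]
  by_contra hc
  rw [not_le] at hc
  refine h ?_
  have : 1 / 100 < |x / 2 ^ l - 1/6 - round (x / 2 ^ l - 1/6)| := by
    have h1 : (2 : ℝ) ^ l * (1 / 100) < 2 ^ l * |x / 2 ^ l - 1/6 - round (x / 2 ^ l - 1/6)| := by
      calc (2 : ℝ) ^ l * (1 / 100) = 2 ^ l / 100 := by ring
        _ < _ := hc
    exact lt_of_mul_lt_mul_left h1 (pw l).le
  unfold dl gp
  rw [g_zero this.le (kap_one l η), mul_zero]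

lemma dl_far {l : ℤ} {η x : ℝ} (h : ∀ n : ℤ, 2 ^ l / 100 ≤ kap l η * |x - 2 ^ l * ((n : ℝ) + 1 / 6)|) (n : ℤ) :
    2 ^ l / 100 ≤ |x + dl l η x - 2 ^ l * ((n : ℝ) + 1 / 6)| := by
  have hp := pw l
  set n0 := round (x / 2 ^ l - 1/6) with hn0
  set s := x / 2 ^ l - 1/6 - n0 with hs
  have e0 : x - 2 ^ l * ((n0 : ℝ) + 1 / 6) = 2 ^ l * s := x_eq l x
  have h0 := h n0
  rw [e0, abs_mul, abs_of_pos hp] at h0
  have h1 : 1 / 100 ≤ kap l η * |s| := by
    have : (2 : ℝ) ^ l * (1 / 100) ≤ 2 ^ l * (kap l η * |s|) := by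
      calc (2 : ℝ) ^ l * (1 / 100) = 2 ^ l / 100 := by ring
        _ ≤ _ := h0
        _ = _ := by ring
    exact le_of_mul_le_mul_left this hp
  have h2 := g_low h1 (kap_one l η)
  have h3 := g_up (κ := kap l η) (s := s)
  have hs2 : |s| ≤ 1 / 2 := abs_sub_round _
  have h4 : |s + g (kap l η) s| ≤ 1 / 2 := h3.trans (max_le (by norm_num) hs2)
  have e1 : x + dl l η x - 2 ^ l * ((n : ℝ) + 1 / 6) = 2 ^ l * ((s + g (kap l η) s) + ((n0 : ℝ) - n)) := by
    have : dl l η x = 2 ^ l * g (kap l η) s := rfl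
    rw [this]
    linear_combination e0
  rw [e1, abs_mul, abs_of_pos hp]
  have key : 1 / 100 ≤ |(s + g (kap l η) s) + ((n0 : ℝ) - n)| := by
    by_cases hn : n0 = n
    · rw [hn, sub_self, add_zero]; exact h2
    · have h5 : (1 : ℝ) ≤ |(n0 : ℝ) - n| := by
        have : (1 : ℤ) ≤ |n0 - n| := Int.one_le_abs (sub_ne_zero.2 hn)
        exact_mod_cast this
      have h6 : |(n0 : ℝ) - n| ≤ |(s + g (kap l η) s) + ((n0 : ℝ) - n)| + |s + g (kap l η) s| := by
        have := abs_sub (s + g (kap l η) s + ((n0 : ℝ) - n)) (s + g (kap l η) s)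
        rwa [add_sub_cancel_left] at this
      linarith
  calc (2 : ℝ) ^ l / 100 = 2 ^ l * (1 / 100) := by ring
    _ ≤ _ := mul_le_mul_of_nonneg_left key hp.le

lemma wall (l n n' : ℤ) :
    (2 : ℝ) ^ l / 6 ≤ |2 ^ l * ((n : ℝ) + 1 / 6) - 2 ^ (l + 1) * ((n' : ℝ) + 1 / 6)| := by
  have hp := pw l
  have e : (2 : ℝ) ^ l * ((n : ℝ) + 1 / 6) - 2 ^ (l + 1) * ((n' : ℝ) + 1 / 6) =
      2 ^ l / 6 * ((6 * n - 12 * n' - 1 : ℤ) : ℝ) := by
    rw [zpow_add₀ (by norm_num), zpow_one]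
    push_cast
    ring
  rw [e, abs_mul, abs_of_pos (by positivity)]
  have : (1 : ℝ) ≤ |((6 * n - 12 * n' - 1 : ℤ) : ℝ)| := by
    have : (1 : ℤ) ≤ |6 * n - 12 * n' - 1| := Int.one_le_abs (by omega)
    exact_mod_cast this
  exact le_mul_of_one_le_right (by positivity) this


lemma farA {j : ℤ} {η x a b : ℝ} (ha : 0 ≤ a ∧ a ≤ 1) (hb : 0 ≤ b ∧ b ≤ 1)
    (h : ∀ n : ℤ, 2 ^ j / 100 ≤ kap j η * |x - 2 ^ j * ((n : ℝ) + 1 / 6)|) (n : ℤ) :
    2 ^ j / 100 ≤ |x + (a * dl (j - 1) η x + dl j η x + b * dl (j + 1) η x) - 2 ^ j * ((n : ℝ) + 1 / 6)| := by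
  have hp := pw (j - 1)
  have e1 : (2 : ℝ) ^ j = 2 * 2 ^ (j - 1) := by
    rw [← zpow_one_add₀ (by norm_num)]; congr 1; ring
  have e2 : (2 : ℝ) ^ (j + 1) = 4 * 2 ^ (j - 1) := by
    rw [zpow_add₀ (by norm_num), zpow_one, e1]; ring
  have d1 := abs_le.1 (dl_abs (j - 1) η x)
  have d2 := abs_le.1 (dl_abs j η x)
  have d3 := abs_le.1 (dl_abs (j + 1) η x)
  have w1 : ∀ k n : ℤ, (2 : ℝ) ^ (j - 1) / 6 ≤ |2 ^ (j - 1) * ((k : ℝ) + 1 / 6) - 2 ^ j * ((n : ℝ) + 1 / 6)| := by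
    intro k n
    have := wall (j - 1) k n
    rwa [sub_add_cancel] at this
  have w2 : ∀ k n : ℤ, (2 : ℝ) ^ j / 6 ≤ |2 ^ j * ((n : ℝ) + 1 / 6) - 2 ^ (j + 1) * ((k : ℝ) + 1 / 6)| :=
    fun k n => wall j n k
  -- far from the walls of level j
  have core : (∀ n : ℤ, (15 / 100) * 2 ^ (j - 1) ≤ |x - 2 ^ j * ((n : ℝ) + 1 / 6)|) →
      2 ^ j / 100 ≤ |x + (a * dl (j - 1) η x + dl j η x + b * dl (j + 1) η x) - 2 ^ j * ((n : ℝ) + 1 / 6)| := by
    intro hf
    have hz : dl j η x = 0 := by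
      by_contra hc
      obtain ⟨k, hk⟩ := dl_ne hc
      have := hf k
      rw [e1] at hk this
      linarith
    rw [hz, add_zero]
    have h1 := hf n
    have h2 : |a * dl (j - 1) η x + b * dl (j + 1) η x| ≤ 2 ^ (j - 1) / 100 + 4 * 2 ^ (j - 1) / 100 := by
      refine (abs_add_le _ _).trans (add_le_add ?_ ?_)
      · rw [abs_mul, abs_of_nonneg ha.1]
        exact (mul_le_of_le_one_left (abs_nonneg _) ha.2).trans (dl_abs _ _ _)
      · rw [abs_mul, abs_of_nonneg hb.1, ← e2]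
        exact (mul_le_of_le_one_left (abs_nonneg _) hb.2).trans (dl_abs _ _ _)
    have h3 : |x - 2 ^ j * ((n : ℝ) + 1 / 6)| ≤
        |x + (a * dl (j - 1) η x + b * dl (j + 1) η x) - 2 ^ j * ((n : ℝ) + 1 / 6)| +
          |a * dl (j - 1) η x + b * dl (j + 1) η x| := by
      have := abs_sub (x + (a * dl (j - 1) η x + b * dl (j + 1) η x) - 2 ^ j * ((n : ℝ) + 1 / 6))
        (a * dl (j - 1) η x + b * dl (j + 1) η x)
      refine le_trans (le_of_eq ?_) this
      congr 1; ring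
    rw [e1] at h1 h3 ⊢
    linarith
  by_cases z1 : dl (j - 1) η x = 0
  · by_cases z3 : dl (j + 1) η x = 0
    · rw [z1, z3, mul_zero, mul_zero, add_zero, zero_add]
      exact dl_far h n
    · refine core fun n => ?_
      obtain ⟨k, hk⟩ := dl_ne z3
      have h1 := w2 k n
      have h2 := abs_sub_le (2 ^ j * ((n : ℝ) + 1 / 6)) x (2 ^ (j + 1) * ((k : ℝ) + 1 / 6))
      rw [abs_sub_comm (2 ^ j * ((n : ℝ) + 1 / 6)) x] at h2
      rw [e2] at hk h1 h2
      rw [e1] at h1 h2 ⊢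
      linarith
  · refine core fun n => ?_
    obtain ⟨k, hk⟩ := dl_ne z1
    have h1 := w1 k n
    have h2 := abs_sub_le (2 ^ (j - 1) * ((k : ℝ) + 1 / 6)) x (2 ^ j * ((n : ℝ) + 1 / 6))
    rw [abs_sub_comm (2 ^ (j - 1) * ((k : ℝ) + 1 / 6)) x] at h2
    rw [e1] at h1 h2 ⊢
    linarith

lemma farB {j : ℤ} {η x : ℝ}
    (h : ∀ n : ℤ, 2 ^ (j + 1) / 100 ≤ kap (j + 1) η * |x - 2 ^ (j + 1) * ((n : ℝ) + 1 / 6)|) (n : ℤ) :
    2 ^ (j + 1) / 100 ≤ |x + (dl j η x + dl (j + 1) η x) - 2 ^ (j + 1) * ((n : ℝ) + 1 / 6)| := by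
  have hp := pw j
  have e2 : (2 : ℝ) ^ (j + 1) = 2 * 2 ^ j := by
    rw [zpow_add₀ (by norm_num), zpow_one]; ring
  by_cases z1 : dl j η x = 0
  · rw [z1, zero_add]
    exact dl_far h n
  · obtain ⟨k, hk⟩ := dl_ne z1
    have hf : ∀ n : ℤ, (15 / 100) * 2 ^ j ≤ |x - 2 ^ (j + 1) * ((n : ℝ) + 1 / 6)| := by
      intro n
      have h1 := wall j k n
      have h2 := abs_sub_le (2 ^ j * ((k : ℝ) + 1 / 6)) x (2 ^ (j + 1) * ((n : ℝ) + 1 / 6))
      rw [abs_sub_comm (2 ^ j * ((k : ℝ) + 1 / 6)) x] at h2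
      linarith
    have hz : dl (j + 1) η x = 0 := by
      by_contra hc
      obtain ⟨k, hk⟩ := dl_ne hc
      have := hf k
      rw [e2] at hk this
      linarith
    rw [hz, add_zero]
    have h1 := hf n
    have h2 := dl_abs j η x
    have h3 : |x - 2 ^ (j + 1) * ((n : ℝ) + 1 / 6)| ≤
        |x + dl j η x - 2 ^ (j + 1) * ((n : ℝ) + 1 / 6)| + |dl j η x| := by
      have := abs_sub (x + dl j η x - 2 ^ (j + 1) * ((n : ℝ) + 1 / 6)) (dl j η x)
      refine le_trans (le_of_eq ?_) this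
      congr 1; ring
    rw [e2] at h1 h3 ⊢
    linarith

lemma al_mem (w : ℝ) : 0 ≤ al w ∧ al w ≤ 1 := ⟨clip_nonneg _, clip_le_one _⟩

lemma al_one {w : ℝ} (h0 : -(1 / 2) ≤ w) (h1 : w ≤ 1) : al w = 1 := by
  unfold al clip
  rw [min_eq_left (le_min (by linarith) (by linarith)), max_eq_right zero_le_one]

lemma al_hi {w : ℝ} (h : 3 / 2 ≤ w) : al w = 0 := by
  unfold al clip
  have : min (2 * w + 2) (3 - 2 * w) ≤ 0 := (min_le_right _ _).trans (by linarith)
  rw [min_eq_right (by linarith), max_eq_left this]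

lemma al_lo {w : ℝ} (h : w ≤ -1) : al w = 0 := by
  unfold al clip
  have : min (2 * w + 2) (3 - 2 * w) ≤ 0 := (min_le_left _ _).trans (by linarith)
  rw [min_eq_right (by linarith), max_eq_left this]

lemma Mp_eq {m : ℕ} (k : ℤ) (L η : ℝ) (x : Fin m → ℝ) (hk : ⌊L⌋ = k) (i : Fin m) :
    Mp L η x i = x i + (al (L - ((k - 1 : ℤ) : ℝ)) * dl (k - 1) η (x i) + al (L - k) * dl k η (x i) +
      al (L - ((k + 1 : ℤ) : ℝ)) * dl (k + 1) η (x i)) := by
  unfold Mp
  rw [hk]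
  have e : Finset.Icc (k - 1) (k + 1) = {k - 1, k, k + 1} := by
    ext l
    simp only [Finset.mem_Icc, Finset.mem_insert, Finset.mem_singleton]
    omega
  have n1 : k - 1 ∉ ({k, k + 1} : Finset ℤ) := by
    simp only [Finset.mem_insert, Finset.mem_singleton]; omega
  have n2 : k ∉ ({k + 1} : Finset ℤ) := by
    simp only [Finset.mem_singleton]; omega
  rw [e, Finset.sum_insert n1, Finset.sum_insert n2, Finset.sum_singleton]
  ring

theorem val {S : Type} [MetricSpace S] {m : ℕ} {p : S} {F : (Fin m → ℝ) → ℝ → S} (hF : Supp p F) (j : ℤ)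
    {L η : ℝ} (h0 : (j : ℝ) ≤ L) (h1 : L ≤ j + 1) (he : η ≤ j) (x : Fin m → ℝ)
    (hx : ∀ (i : Fin m) (l : ℤ), (l = j ∨ l = j + 1) → ∀ n : ℤ,
      2 ^ l / 100 ≤ kap l η * |x i - 2 ^ l * ((n : ℝ) + 1 / 6)|) : KK F L x η = p := by
  have hx0 := fun i => hx i j (Or.inl rfl)
  have hx1 := fun i => hx i (j + 1) (Or.inr rfl)
  have slabcase : ∀ H : ℝ, (j : ℝ) ≤ H → H ≤ j + 1 → hh L = H →
      (∀ i, Mp L η x i = x i + (dl j η (x i) + dl (j + 1) η (x i))) → KK F L x η = p := by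
    intro H hH0 hH1 hH hM
    unfold KK
    rw [hH, max_eq_right (by linarith)]
    refine hF.slab j _ H hH0 hH1 (fun i n => ?_) (fun i n => ?_)
    · rw [hM i]
      have := farA (a := 0) (b := 1) (η := η) (x := x i) ⟨le_rfl, zero_le_one⟩ ⟨zero_le_one, le_rfl⟩ (hx0 i) n
      rwa [zero_mul, zero_add, one_mul] at this
    · rw [hM i]
      exact farB (hx1 i) n
  rcases lt_or_eq_of_le h1 with h | h
  · have hf : ⌊L⌋ = j := Int.floor_eq_iff.2 ⟨h0, h⟩
    have hfr : Int.fract L = L - j := by unfold Int.fract; rw [hf]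
    rcases le_total L (j + 1 / 2) with hL | hL
    · have hH : hh L = j := by
        unfold hh
        rw [hf, hfr, max_eq_left (by linarith), add_zero]
      unfold KK
      rw [hH, max_eq_right he]
      refine hF.slice j _ fun i n => ?_
      rw [Mp_eq j L η x hf i, al_one (w := L - j) (by linarith) (by linarith), one_mul]
      exact farA (al_mem _) (al_mem _) (hx0 i) n
    · refine slabcase (j + (2 * (L - j) - 1)) (by linarith) (by linarith) ?_ fun i => ?_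
      · unfold hh
        rw [hf, hfr, max_eq_right (by linarith)]
      · rw [Mp_eq j L η x hf i, al_one (w := L - j) (by linarith) (by linarith),
          al_hi (w := L - ((j - 1 : ℤ) : ℝ)) (by push_cast; linarith),
          al_one (w := L - ((j + 1 : ℤ) : ℝ)) (by push_cast; linarith) (by push_cast; linarith)]
        ring
  · have hf : ⌊L⌋ = j + 1 := by rw [Int.floor_eq_iff]; push_cast; constructor <;> linarith
    have hfr : Int.fract L = 0 := by unfold Int.fract; rw [hf, h]; push_cast; ring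
    refine slabcase (j + 1) (by linarith) le_rfl ?_ fun i => ?_
    · unfold hh
      rw [hf, hfr, max_eq_left (by norm_num), add_zero]
      push_cast; ring
    · rw [Mp_eq (j + 1) L η x hf i, al_one (w := L - ((j + 1 : ℤ) : ℝ)) (by push_cast; linarith) (by push_cast; linarith),
        al_one (w := L - ((j + 1 - 1 : ℤ) : ℝ)) (by push_cast; linarith) (by push_cast; linarith),
        al_lo (w := L - ((j + 1 + 1 : ℤ) : ℝ)) (by push_cast; linarith), add_sub_cancel_right]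
      ring

end Pool.Agent.H808R3.LN.Sw
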